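import Pool.Agent.H76.CL.Form

/-!
# A Chen type theorem for Dubner's problem on sums of two twin primes
-/

set_option autoImplicit false

namespace Pool.Agent.Results.MP_c6d112_nt.ChenDubner

open Finset Pool.Agent.H76.CL

/-- the four forms -/
def F (n σ τ : ℤ) : Fin 4 → ℤ × ℤ := ![(1, 0), (1, σ), (-1, n), (-1, n + τ)]

theorem val_F (n σ τ m : ℤ) (l : Fin 4) : val (F n σ τ l) m = ![m, m + σ, n - m, n - m + τ] l := by
  fin_cases l
  · show 1 * m + 0 = m
    ring
  · show 1 * m + σ = m + σ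
    ring
  · show -1 * m + n = n - m
    ring
  · show -1 * m + (n + τ) = n - m + τ
    ring

theorem F_fst (n σ τ : ℤ) (l : Fin 4) : (F n σ τ l).1 = 1 ∨ (F n σ τ l).1 = -1 := by
  fin_cases l
  · exact Or.inl rfl
  · exact Or.inl rfl
  · exact Or.inr rfl
  · exact Or.inr rfl

theorem F_snd {n σ τ : ℤ} (hn : 4 ≤ n) (hσ : σ = 2 ∨ σ = -2) (hτ : τ = 2 ∨ τ = -2) (l : Fin 4) :
    |(F n σ τ l).2| ≤ n + 2 := by
  rw [abs_le]
  fin_cases l
  · show -(n + 2) ≤ 0 ∧ 0 ≤ n + 2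
    omega
  · show -(n + 2) ≤ σ ∧ σ ≤ n + 2
    omega
  · show -(n + 2) ≤ n ∧ n ≤ n + 2
    omega
  · show -(n + 2) ≤ n + τ ∧ n + τ ≤ n + 2
    omega

theorem F_det {n σ τ : ℤ} (hn : 8 ≤ n) (hσ : σ = 2 ∨ σ = -2) (hτ : τ = 2 ∨ τ = -2) {i j : Fin 4} (hij : i ≠ j) :
    (F n σ τ i).1 * (F n σ τ j).2 - (F n σ τ j).1 * (F n σ τ i).2 ≠ 0 := by
  fin_cases i <;> fin_cases j <;> first
    | exact absurd rfl hij
    | (simp [F]; omega)

/-- the values are large on the middle third -/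
theorem F_low {n σ τ m : ℤ} (hn : 24 ≤ n) (hσ : σ = 2 ∨ σ = -2) (hτ : τ = 2 ∨ τ = -2) (h1 : n < 3 * m)
    (h2 : 3 * m ≤ 2 * n) (l : Fin 4) : n ≤ 4 * val (F n σ τ l) m := by
  rw [val_F]
  fin_cases l
  · show n ≤ 4 * m
    omega
  · show n ≤ 4 * (m + σ)
    omega
  · show n ≤ 4 * (n - m)
    omega
  · show n ≤ 4 * (n - m + τ)
    omega

/-- the choice of the signs -/
theorem signs {n : ℤ} (hn : n % 2 = 0) : ∃ σ τ : ℤ, (σ = 2 ∨ σ = -2) ∧ (τ = 2 ∨ τ = -2) ∧
    ∃ m : ℤ, ∀ l : Fin 4, ¬ (3 : ℤ) ∣ val (F n σ τ l) m := by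
  have h3 : n % 3 = 0 ∨ n % 3 = 1 ∨ n % 3 = 2 := by omega
  rcases h3 with h | h | h
  · refine ⟨2, -2, Or.inl rfl, Or.inr rfl, 2, fun l => ?_⟩
    rw [val_F]
    fin_cases l
    · show ¬ (3 : ℤ) ∣ 2
      omega
    · show ¬ (3 : ℤ) ∣ 2 + 2
      omega
    · show ¬ (3 : ℤ) ∣ n - 2
      omega
    · show ¬ (3 : ℤ) ∣ n - 2 + -2
      omega
  · refine ⟨2, 2, Or.inl rfl, Or.inl rfl, 2, fun l => ?_⟩
    rw [val_F]
    fin_cases l
    · show ¬ (3 : ℤ) ∣ 2
      omega
    · show ¬ (3 : ℤ) ∣ 2 + 2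
      omega
    · show ¬ (3 : ℤ) ∣ n - 2
      omega
    · show ¬ (3 : ℤ) ∣ n - 2 + 2
      omega
  · refine ⟨-2, -2, Or.inr rfl, Or.inr rfl, 1, fun l => ?_⟩
    rw [val_F]
    fin_cases l
    · show ¬ (3 : ℤ) ∣ 1
      omega
    · show ¬ (3 : ℤ) ∣ 1 + -2
      omega
    · show ¬ (3 : ℤ) ∣ n - 1
      omega
    · show ¬ (3 : ℤ) ∣ n - 1 + -2
      omega

/-- **A Chen type theorem for sums of two twin primes.**  There are `c, ε > 0`, `r` and `n₀` such that for every even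
`n ≥ n₀` there are signs `σ, τ = ± 2` with the following property.  Consider the four numbers `m`, `m + σ`, `n - m`,
`n - m + τ`.  For any two of them (given by their places `i ≠ j`) there are at least `c (1 + S) n / (log n) ^ 4`
integers `n / 3 < m ≤ 2 n / 3` for which the first is a prime, the second is a prime or a product of two primes, both
`≥ n ^ (1 / 9)`, and all the four numbers have at most `r` prime factors, all of them `≥ n ^ ε`.  Here `S` is the product
of `(1 - w(p) / p) / (1 - 1 / p) ^ 4` over the primes `p ≤ n`, where `w(p)` is the number of the residue classes `m`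
modulo `p` for which `p` divides the product of the four numbers. -/
theorem result : ∃ c ε : ℝ, 0 < c ∧ 0 < ε ∧ ∃ r n₀ : ℕ, ∀ n : ℕ, n₀ ≤ n → Even n →
    ∃ σ τ : ℤ, (σ = 2 ∨ σ = -2) ∧ (τ = 2 ∨ τ = -2) ∧ ∀ i j : Fin 4, i ≠ j →
      c * (1 + ∏ p ∈ (Icc 1 n).filter Nat.Prime,
          (1 - (((range p).filter (fun m : ℕ =>
            (p : ℤ) ∣ m * (m + σ) * ((n : ℤ) - m) * ((n : ℤ) - m + τ))).card : ℝ) / p) / (1 - 1 / (p : ℝ)) ^ 4) *
          (n / Real.log n ^ 4) ≤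
        ({m : ℕ | n < 3 * m ∧ 3 * m ≤ 2 * n ∧
          (![(m : ℤ), m + σ, (n : ℤ) - m, (n : ℤ) - m + τ] i).natAbs.Prime ∧
          (![(m : ℤ), m + σ, (n : ℤ) - m, (n : ℤ) - m + τ] j).natAbs.primeFactorsList.length ≤ 2 ∧
          (∀ q ∈ (![(m : ℤ), m + σ, (n : ℤ) - m, (n : ℤ) - m + τ] j).natAbs.primeFactors,
            (n : ℝ) ^ (1 / 9 : ℝ) ≤ q) ∧
          ∀ l, (![(m : ℤ), m + σ, (n : ℤ) - m, (n : ℤ) - m + τ] l).natAbs.primeFactorsList.length ≤ r ∧
            ∀ q ∈ (![(m : ℤ), m + σ, (n : ℤ) - m, (n : ℤ) - m + τ] l).natAbs.primeFactors,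
              (n : ℝ) ^ ε ≤ q}.ncard : ℝ) := by
  classical
  obtain ⟨ε, c, hε0, hε1, hc, r, B₀, hB₀⟩ := chen_sys 4 3 (by norm_num) (by norm_num) (1 / 4) (by norm_num) (by norm_num)
  obtain ⟨c', hc', hboth⟩ := both 4 2 (by norm_num)
  have ev : ∀ᶠ n : ℕ in Filter.atTop, (2 : ℝ) ≤ (n : ℝ) ^ (ε / 2) :=
    (Filter.Tendsto.comp (tendsto_rpow_atTop (by positivity)) tendsto_natCast_atTop_atTop).eventually_ge_atTop 2
  have ev2 : ∀ᶠ n : ℕ in Filter.atTop, (2 : ℝ) ≤ (n : ℝ) ^ (1 / 9 : ℝ) :=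
    (Filter.Tendsto.comp (tendsto_rpow_atTop (by norm_num)) tendsto_natCast_atTop_atTop).eventually_ge_atTop 2
  obtain ⟨n₁, hn₁⟩ := Filter.eventually_atTop.1 (ev.and ev2)
  refine ⟨c * c', ε / 2, by positivity, by positivity, r, 2 * B₀ + n₁ + 100, ?_⟩
  intro n hn hev
  obtain ⟨σ, τ, hσ, hτ, m₃, hm₃⟩ := signs (n := (n : ℤ)) (by
    obtain ⟨t, ht⟩ := hev
    omega)
  refine ⟨σ, τ, hσ, hτ, ?_⟩
  intro i j hij
  obtain ⟨hn1, hn2⟩ := hn₁ n (by omega)
  set B : ℕ := 2 * n / 3 with hB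
  set A : ℕ := (n + 2) / 3 with hA
  have hBn : B ≤ n := by omega
  have hn2B : n ≤ 2 * B := by omega
  have hnr : (100 : ℝ) ≤ n := by exact_mod_cast (by omega : 100 ≤ n)
  have hn2B' : (n : ℝ) ≤ 2 * B := by exact_mod_cast hn2B
  have hn0 : (0 : ℝ) < n := by linarith
  set G : Finset (ℤ × ℤ) := univ.image (F n σ τ) with hG
  have hmem : ∀ l, F n σ τ l ∈ G := fun l => mem_image_of_mem _ (mem_univ _)
  have hsm : ∀ l : Fin 4, |(F n σ τ l).2| ≤ (n : ℤ) + 2 := fun l => F_snd (by omega) hσ hτ l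
  have hAdm : Adm G := by
    intro p hp
    rcases lt_or_ge 4 p with h4 | h4
    · have h1 : (rts G p).card ≤ G.card := by
        apply card_rts_le hp
        intro g hg hd
        rw [hG, mem_image] at hg
        obtain ⟨l, -, rfl⟩ := hg
        have h2 : (p : ℤ) ∣ 1 := by
          rcases F_fst n σ τ l with h | h
          · rw [h] at hd
            exact hd
          · rw [h] at hd
            exact (dvd_neg.1 hd)
        have h3 : p ∣ 1 := by exact_mod_cast h2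
        exact hp.one_lt.ne' (Nat.dvd_one.1 h3)
      have h2 : G.card ≤ 4 := by
        refine card_image_le.trans ?_
        rw [card_univ, Fintype.card_fin]
      have h3 : ∃ m ∈ range p, m ∉ rts G p := by
        by_contra hcon
        push Not at hcon
        have := card_le_card (show range p ⊆ rts G p from fun m hm => hcon m hm)
        rw [card_range] at this
        omega
      obtain ⟨m, hm1, hm2⟩ := h3
      refine ⟨m, fun f hf hd => hm2 ?_⟩
      unfold rts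
      rw [mem_filter]
      exact ⟨hm1, f, hf, hd⟩
    · have h5 : p = 2 ∨ p = 3 := by
        have := hp.two_le
        interval_cases p
        · exact Or.inl rfl
        · exact Or.inr rfl
        · exact absurd hp (by norm_num)
      rcases h5 with rfl | rfl
      · refine ⟨1, fun f hf => ?_⟩
        rw [hG, mem_image] at hf
        obtain ⟨l, -, rfl⟩ := hf
        rw [val_F]
        obtain ⟨t, ht⟩ := hev
        fin_cases l
        · show ¬ (2 : ℤ) ∣ 1
          omega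
        · show ¬ (2 : ℤ) ∣ 1 + σ
          omega
        · show ¬ (2 : ℤ) ∣ (n : ℤ) - 1
          omega
        · show ¬ (2 : ℤ) ∣ (n : ℤ) - 1 + τ
          omega
      · refine ⟨m₃, fun f hf => ?_⟩
        rw [hG, mem_image] at hf
        obtain ⟨l, -, rfl⟩ := hf
        exact_mod_cast hm₃ l
  have hrange : ∀ m : ℤ, A < m → m ≤ B → (n : ℤ) < 3 * m ∧ 3 * m ≤ 2 * n := by
    intro m h1 h2
    omega
  have hlow : ∀ (l : Fin 4) (m : ℤ), A < m → m ≤ B → (1 / 4 : ℝ) * B ≤ (val (F n σ τ l) m : ℝ) := by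
    intro l m h1 h2
    obtain ⟨h3, h4⟩ := hrange m h1 h2
    have h5 := F_low (n := (n : ℤ)) (m := m) (by omega) hσ hτ h3 h4 l
    have h6 : (n : ℝ) ≤ 4 * (val (F n σ τ l) m : ℝ) := by exact_mod_cast h5
    have h7 : (B : ℝ) ≤ n := by exact_mod_cast hBn
    linarith
  have hK3 : ∀ l : Fin 4, |(F n σ τ l).2| ≤ ((3 : ℕ) : ℤ) * B := by
    intro l
    refine (hsm l).trans ?_
    push_cast
    omega
  obtain ⟨hm1, hm2⟩ := hB₀ B (by omega) A
    (by
      have h1 : (A : ℝ) ≤ (n + 2) / 3 := by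
        have : ((n + 2) / 3 * 3 : ℕ) ≤ n + 2 := Nat.div_mul_le_self _ _
        have h2 : ((A * 3 : ℕ) : ℝ) ≤ ((n + 2 : ℕ) : ℝ) := by exact_mod_cast this
        push_cast at h2
        linarith
      have h3 : (2 * n - 3 : ℝ) / 3 ≤ B := by
        have : 2 * n < 3 * B + 3 := by omega
        have h2 : ((2 * n : ℕ) : ℝ) < ((3 * B + 3 : ℕ) : ℝ) := by exact_mod_cast this
        push_cast at h2
        linarith
      have h4 : (B : ℝ) ≤ 2 * n / 3 := by
        have : 3 * B ≤ 2 * n := by omega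
        have h2 : ((3 * B : ℕ) : ℝ) ≤ ((2 * n : ℕ) : ℝ) := by exact_mod_cast this
        push_cast at h2
        linarith
      linarith)
    G
    (by
      refine card_image_le.trans ?_
      rw [card_univ, Fintype.card_fin])
    (F n σ τ i) (hmem i) (F n σ τ j) (hmem j)
    (fun he => by
      apply F_det (n := (n : ℤ)) (by omega) hσ hτ hij
      rw [he]
      ring)
    (by
      intro f hf
      rw [hG, mem_image] at hf
      obtain ⟨l, -, rfl⟩ := hf
      refine ⟨?_, ?_, ?_⟩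
      · rcases F_fst n σ τ l with h | h <;> rw [h] <;> norm_num
      · rcases F_fst n σ τ l with h | h <;> rw [h] <;> norm_num
      · refine (hK3 l).trans ?_
        have h1 : (3 : ℤ) ≤ B := by exact_mod_cast (by omega : 3 ≤ B)
        have h2 : (3 : ℤ) ≤ B * B := by nlinarith
        have h3 : (3 : ℤ) * B ≤ B * B * B := mul_le_mul_of_nonneg_right h2 (by linarith)
        have h4 : (B : ℤ) ^ 3 = B * B * B := by ring
        push_cast
        rw [h4]
        exact h3)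
    (hK3 i) (hK3 j) (F_det (n := (n : ℤ)) (by omega) hσ hτ hij)
    (fun m h1 h2 => ⟨hlow i m h1 h2, hlow j m h1 h2⟩) hAdm
  set ν : ℕ → ℕ := fun p => ((range p).filter (fun m : ℕ =>
            (p : ℤ) ∣ m * (m + σ) * ((n : ℤ) - m) * ((n : ℤ) - m + τ))).card with hν
  have hν1 : ∀ p : ℕ, p.Prime → (rts G p).card ≤ ν p := by
    intro p hp
    apply card_le_card
    intro m hm
    unfold rts at hm
    rw [mem_filter] at hm ⊢
    obtain ⟨h1, g, hg, h2⟩ := hm
    refine ⟨h1, ?_⟩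
    rw [hG, mem_image] at hg
    obtain ⟨l, -, rfl⟩ := hg
    rw [val_F] at h2
    fin_cases l
    · exact ((Dvd.dvd.mul_right h2 _).mul_right _).mul_right _
    · exact ((Dvd.dvd.mul_left h2 _).mul_right _).mul_right _
    · exact (Dvd.dvd.mul_left h2 _).mul_right _
    · exact Dvd.dvd.mul_left h2 _
  have hν2 : ∀ p : ℕ, p.Prime → ν p ≤ p := by
    intro p hp
    have := card_le_card (filter_subset (fun m : ℕ =>
            (p : ℤ) ∣ m * (m + σ) * ((n : ℤ) - m) * ((n : ℤ) - m + τ)) (range p))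
    rwa [card_range] at this
  have hfin := hboth c _ hc B n (by omega) hBn hn2B' G ν hν1 hν2 hm1 hm2
  refine hfin.trans (card_le_ncard n ?_ ?_)
  · intro m hm
    unfold Sys at hm
    rw [mem_filter, mem_Ioc] at hm
    obtain ⟨⟨h1, h2⟩, h3, h4, h5, h6⟩ := hm
    obtain ⟨r1, r2⟩ := hrange m (by exact_mod_cast h1) (by exact_mod_cast h2)
    have hnn : ∀ l, 0 ≤ val (F n σ τ l) m := by
      intro l
      have := F_low (n := (n : ℤ)) (m := (m : ℤ)) (by omega) hσ hτ r1 r2 l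
      omega
    have hta : ∀ l, (val (F n σ τ l) m).toNat = (![(m : ℤ), m + σ, (n : ℤ) - m, (n : ℤ) - m + τ] l).natAbs := by
      intro l
      rw [← val_F]
      have := hnn l
      omega
    have hBpow : (n : ℝ) ^ (1 / 9 : ℝ) ≤ (B : ℝ) ^ (1 / 8 : ℝ) := by
      have h7 : (n : ℝ) ^ (8 / 9 : ℝ) ≤ B := by
        have e1 : (n : ℝ) = (n : ℝ) ^ (8 / 9 : ℝ) * (n : ℝ) ^ (1 / 9 : ℝ) := by
          rw [← Real.rpow_add hn0]
          norm_num
        have h8 : (0 : ℝ) < (n : ℝ) ^ (8 / 9 : ℝ) := by positivity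
        nlinarith
      calc (n : ℝ) ^ (1 / 9 : ℝ) = ((n : ℝ) ^ (8 / 9 : ℝ)) ^ (1 / 8 : ℝ) := by
            rw [← Real.rpow_mul hn0.le]
            norm_num
        _ ≤ _ := Real.rpow_le_rpow (by positivity) h7 (by norm_num)
    have hBε : (n : ℝ) ^ (ε / 2) ≤ (B : ℝ) ^ ε := by
      have h7 : (n : ℝ) ^ (1 / 2 : ℝ) ≤ B := by
        rw [← Real.sqrt_eq_rpow]
        apply Real.sqrt_le_iff.2
        constructor
        · positivity
        · nlinarith
      calc (n : ℝ) ^ (ε / 2) = ((n : ℝ) ^ (1 / 2 : ℝ)) ^ ε := by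
            rw [← Real.rpow_mul hn0.le]
            congr 1
            ring
        _ ≤ _ := Real.rpow_le_rpow (by positivity) h7 hε0.le
    rw [hta i] at h3
    rw [hta j] at h4
    refine ⟨by exact_mod_cast r1, by exact_mod_cast r2, h3, h4, ?_, ?_⟩
    · intro q hq
      refine hBpow.trans (h5 q (Nat.prime_of_mem_primeFactors hq) ?_)
      rw [val_F]
      exact Int.natCast_dvd.2 (Nat.dvd_of_mem_primeFactors hq)
    · intro l
      obtain ⟨g1, g2⟩ := h6 (F n σ τ l) (hmem l)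
      rw [val_F] at g1
      refine ⟨g1, fun q hq => hBε.trans (g2 q (Nat.prime_of_mem_primeFactors hq) ?_)⟩
      rw [val_F]
      exact Int.natCast_dvd.2 (Nat.dvd_of_mem_primeFactors hq)
  · intro m hm
    have := hm.2.1
    omega

end Pool.Agent.Results.MP_c6d112_nt.ChenDubner
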