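import Pool.Agent.H76.NA.Sys
import Pool.Agent.Results.MP_c6d112_nt.ChenDubner

/-!
# Szemerédi's theorem, with narrow progressions, for Chen type sums of two twin primes
-/

set_option autoImplicit false

namespace Pool.Agent.Results.MP_c6d112_nt.SzemerediDubner

open Finset Pool.Agent.H76.CL Pool.Agent.H76.NA
open Pool.Agent.Results.MP_c6d112_nt.ChenDubner (F val_F F_fst F_low)

/-- **Szemerédi's theorem for Chen type sums of two twin primes.**  There are `ε > 0` and `r` such that for all `k` and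
`δ > 0` there are `C` and `n₀` with the following property.  For every even `n ≥ n₀` there are signs `σ, τ = ± 2` such
that for any two of the four numbers `m`, `m + σ`, `n - m`, `n - m + τ` (given by their places `i ≠ j`) the following
holds for the set `T` of the integers `n / 3 < m ≤ 2 n / 3` for which the first is a prime, the second is a prime or a
product of two primes, both `≥ n ^ (1 / 9)`, and all the four numbers have at most `r` prime factors, all of them
`≥ n ^ ε`: every subset `S` of `T` with at least `δ |T|` elements contains an arithmetic progression of `k` terms with a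
difference `1 ≤ d ≤ (log n) ^ C`. -/
theorem result : ∃ ε : ℝ, 0 < ε ∧ ∃ r : ℕ, ∀ (k : ℕ) (δ : ℝ), 0 < δ → ∃ C n₀ : ℕ, ∀ n : ℕ, n₀ ≤ n → Even n →
    ∃ σ τ : ℤ, (σ = 2 ∨ σ = -2) ∧ (τ = 2 ∨ τ = -2) ∧ ∀ i j : Fin 4, i ≠ j →
      ∀ T : Set ℕ, T = {m : ℕ | n < 3 * m ∧ 3 * m ≤ 2 * n ∧
          (![(m : ℤ), m + σ, (n : ℤ) - m, (n : ℤ) - m + τ] i).natAbs.Prime ∧
          (![(m : ℤ), m + σ, (n : ℤ) - m, (n : ℤ) - m + τ] j).natAbs.primeFactorsList.length ≤ 2 ∧
          (∀ q ∈ (![(m : ℤ), m + σ, (n : ℤ) - m, (n : ℤ) - m + τ] j).natAbs.primeFactors,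
            (n : ℝ) ^ (1 / 9 : ℝ) ≤ q) ∧
          ∀ l, (![(m : ℤ), m + σ, (n : ℤ) - m, (n : ℤ) - m + τ] l).natAbs.primeFactorsList.length ≤ r ∧
            ∀ q ∈ (![(m : ℤ), m + σ, (n : ℤ) - m, (n : ℤ) - m + τ] l).natAbs.primeFactors,
              (n : ℝ) ^ ε ≤ q} →
      ∀ S : Set ℕ, S ⊆ T → δ * (T.ncard : ℝ) ≤ (S.ncard : ℝ) →
        ∃ a d : ℕ, 1 ≤ d ∧ (d : ℝ) ≤ Real.log n ^ C ∧ ∀ t < k, a + t * d ∈ S := by
  classical
  obtain ⟨c, ε, hc, hε, r, n₀, hchen⟩ := Pool.Agent.Results.MP_c6d112_nt.ChenDubner.result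
  obtain ⟨c₀, hc₀, hcount⟩ := of_count 4
  refine ⟨ε, hε, r, fun k δ hδ => ?_⟩
  obtain ⟨C, x₀, hz⟩ := szem_ne 4 ε (c * c₀) (1 / 2) hε (by positivity) (by norm_num) k δ hδ
  refine ⟨C, n₀ + x₀ + 100, ?_⟩
  intro n hn hev
  obtain ⟨σ, τ, hσ, hτ, hmain⟩ := hchen n (by omega) hev
  refine ⟨σ, τ, hσ, hτ, ?_⟩
  intro i j hij T hT
  have hm := hmain i j hij
  rw [← hT] at hm
  have hnr : (100 : ℝ) ≤ n := by exact_mod_cast (by omega : 100 ≤ n)
  have hTsub : T ⊆ ((Ioc (n / 3) n : Finset ℕ) : Set ℕ) := by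
    intro m hmT
    rw [hT] at hmT
    obtain ⟨h1, h2, -⟩ := hmT
    rw [mem_coe, mem_Ioc]
    omega
  have hTf : T.Finite := Set.Finite.subset (finite_toSet _) hTsub
  set G : Finset (ℤ × ℤ) := univ.image (F n σ τ) with hG
  set W : ℕ → Finset ℕ := fun p => (range p).filter (fun m : ℕ =>
            (p : ℤ) ∣ m * (m + σ) * ((n : ℤ) - m) * ((n : ℤ) - m + τ)) with hW
  set U : Finset ℕ := hTf.toFinset with hU
  have hTU : T = (U : Set ℕ) := by rw [hU, Set.Finite.coe_toFinset]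
  have hcardU : (T.ncard : ℝ) = U.card := by rw [hTU, Set.ncard_coe_finset]
  have hWp : ∀ p : ℕ, p.Prime → (W p).card ≤ p := by
    intro p _
    have := card_le_card (filter_subset (fun m : ℕ =>
            (p : ℤ) ∣ m * (m + σ) * ((n : ℤ) - m) * ((n : ℤ) - m + τ)) (range p))
    rwa [card_range] at this
  have hmem : ∀ {p m : ℕ}, p.Prime → (p : ℤ) ∣ (m : ℤ) * (m + σ) * ((n : ℤ) - m) * ((n : ℤ) - m + τ) →
      ∃ l, (p : ℤ) ∣ val (F n σ τ l) m := by
    intro p m hp hd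
    have hpp : Prime (p : ℤ) := Nat.prime_iff_prime_int.1 hp
    rcases hpp.dvd_or_dvd hd with h | h
    · rcases hpp.dvd_or_dvd h with h | h
      · rcases hpp.dvd_or_dvd h with h | h
        · exact ⟨0, by rw [val_F]; exact h⟩
        · exact ⟨1, by rw [val_F]; exact h⟩
      · exact ⟨2, by rw [val_F]; exact h⟩
    · exact ⟨3, by rw [val_F]; exact h⟩
  have hW4 : ∀ p : ℕ, p.Prime → (W p).card ≤ 4 := by
    intro p hp
    have h1 : W p ⊆ rts G p := by
      intro m hm
      rw [hW, mem_filter] at hm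
      obtain ⟨l, hl⟩ := hmem hp hm.2
      unfold rts
      rw [mem_filter]
      exact ⟨hm.1, F n σ τ l, mem_image_of_mem _ (mem_univ _), hl⟩
    refine (card_le_card h1).trans ((card_rts_le hp ?_).trans ?_)
    · intro g hg hd
      rw [hG, mem_image] at hg
      obtain ⟨l, -, rfl⟩ := hg
      have h2 : (p : ℤ) ∣ 1 := by
        rcases F_fst n σ τ l with h | h
        · rw [h] at hd
          exact hd
        · rw [h] at hd
          exact (dvd_neg.1 hd)
      have h3 : p ∣ 1 := by exact_mod_cast h2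
      exact hp.one_lt.ne' (Nat.dvd_one.1 h3)
    · refine card_image_le.trans ?_
      rw [card_univ, Fintype.card_fin]
  have hS0 : 0 ≤ ∏ p ∈ (Icc 1 n).filter Nat.Prime, (1 - ((W p).card : ℝ) / p) / (1 - 1 / (p : ℝ)) ^ 4 := by
    apply prod_nonneg
    intro p hp
    have hp' := (mem_filter.1 hp).2
    have hp0 : (0 : ℝ) < p := by exact_mod_cast hp'.pos
    have h1 := (Pool.Agent.Y843.HG.fac1 hp').1
    apply div_nonneg
    · rw [sub_nonneg, div_le_one hp0]
      exact_mod_cast hWp p hp'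
    · have : (0 : ℝ) ≤ 1 - 1 / (p : ℝ) := by linarith
      positivity
  have hln : 0 < Real.log (n : ℝ) := Real.log_pos (by linarith)
  have hX : 0 < (n : ℝ) / Real.log n ^ 4 := by positivity
  have hpos : 0 < T.ncard := by
    have h1 : 0 < (T.ncard : ℝ) := by
      refine lt_of_lt_of_le ?_ hm
      apply mul_pos (mul_pos hc ?_) hX
      linarith
    exact_mod_cast h1
  apply to_set hTU
  intro S hSU hSδ
  refine hz n (by omega) (n / 3) ?_ W (fun p hp => ⟨hW4 p hp, fun c hc => mem_range.1 (mem_filter.1 hc).1⟩) U ?_ ?_ ?_ ?_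
    S hSU hSδ
  · have h1 : ((n / 3 : ℕ) : ℝ) ≤ n / 3 := by
      have := Nat.cast_div_le (α := ℝ) (m := n) (n := 3)
      simpa using this
    linarith
  · rw [← card_pos]
    rw [hTU, Set.ncard_coe_finset] at hpos
    exact hpos
  · intro m hmU
    have : m ∈ T := by rw [hTU]; exact mem_coe.2 hmU
    exact mem_coe.1 (hTsub this)
  · intro m hmU p hp hpx hcon
    have hmT : m ∈ T := by rw [hTU]; exact mem_coe.2 hmU
    rw [hT] at hmT
    obtain ⟨h1, h2, -, -, -, h6⟩ := hmT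
    rw [hW, mem_filter] at hcon
    obtain ⟨l, hl⟩ := hmem hp hcon.2
    have h3 := (dvd_val_iff (mod_sub m p)).1 hl
    have h4 := F_low (n := (n : ℤ)) (m := (m : ℤ)) (by omega) hσ hτ (by omega) (by omega) l
    rw [val_F] at h3 h4
    have h5 := (h6 l).2 p (by
      rw [Nat.mem_primeFactors]
      refine ⟨hp, Int.natCast_dvd.1 h3, ?_⟩
      rw [Int.natAbs_ne_zero]
      intro h0
      rw [h0] at h4
      omega)
    linarith
  · have h1 := hcount n (by omega) (fun p => (W p).card) hWp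
    have h2 : Pool.Agent.Y843.HS.VV W 0 n = ∏ p ∈ (Icc 1 n).filter Nat.Prime, (1 - ((W p).card : ℝ) / p) := by
      unfold Pool.Agent.Y843.HS.VV
      rw [Pr_eq]
    rw [h2, ← hcardU]
    have h3 : c * (∏ p ∈ (Icc 1 n).filter Nat.Prime, (1 - ((W p).card : ℝ) / p) / (1 - 1 / (p : ℝ)) ^ 4) *
        (n / Real.log n ^ 4) ≤ (T.ncard : ℝ) := by
      refine le_trans ?_ hm
      apply mul_le_mul_of_nonneg_right _ hX.le
      apply mul_le_mul_of_nonneg_left _ hc.le
      linarith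
    have h4 := mul_le_mul_of_nonneg_left h1 hc.le
    have e1 : c * (c₀ * n * ∏ p ∈ (Icc 1 n).filter Nat.Prime, (1 - ((W p).card : ℝ) / p)) =
      c * c₀ * n * ∏ p ∈ (Icc 1 n).filter Nat.Prime, (1 - ((W p).card : ℝ) / p) := by ring
    have e2 : c * ((∏ p ∈ (Icc 1 n).filter Nat.Prime, (1 - ((W p).card : ℝ) / p) / (1 - 1 / (p : ℝ)) ^ 4) *
      (n / Real.log n ^ 4)) = c * (∏ p ∈ (Icc 1 n).filter Nat.Prime,
        (1 - ((W p).card : ℝ) / p) / (1 - 1 / (p : ℝ)) ^ 4) * (n / Real.log n ^ 4) := by ring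
    rw [e1, e2] at h4
    push_cast
    linarith

end Pool.Agent.Results.MP_c6d112_nt.SzemerediDubner
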